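import Pool.Agent.H84.T2e.Path1
import Pool.Agent.H38.PT.Cherry

/-!
# A dense set of paths of two hinges between two fixed points of a cell
-/

open MeasureTheory Set
open scoped ComplexConjugate Real ENNReal NNReal

namespace Pool.Agent.H84.T2e

open Pool.Agent.H2.T2

/-- Path count: in a dense set of triangles in a cell there are two points `z`, `z''` at distance at
least `η ^ C * h` and a set of angles `t` of measure at least `η ^ C` such that `(z, t)` is joined to
a triangle centred at `z''` by a hinge of type `α` followed by a hinge of type `β`. -/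
def PathC (α β : ℂ) : Prop := ∃ C : ℕ, ∀ (η h : ℝ) (z₀ : ℂ) (G : Set (ℂ × ℝ)),
  0 < η → η ≤ 1 / 2 → 0 < h → h ≤ η ^ C → MeasurableSet G →
  (∀ x ∈ G, x.1 ∈ sq z₀ h ∧ 0 ≤ x.2 ∧ x.2 < 2 * π) → ENNReal.ofReal (η * h ^ 2) ≤ volume G →
  ∃ (z z'' : ℂ) (T : Set ℝ), MeasurableSet T ∧ T ⊆ Ico 0 (2 * π) ∧
    ENNReal.ofReal (η ^ C) ≤ volume T ∧ η ^ C * h ≤ ‖z'' - z‖ ∧
    ∀ t ∈ T, ∃ t' t'' : ℝ, Hinge α h G (z, t) (turn α (z, t) t') ∧
      Hinge β h G (turn α (z, t) t') (turn β (turn α (z, t) t') t'') ∧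
      (turn β (turn α (z, t) t') t'').1 = z''

theorem measurable_turn (α : ℂ) {X : Type*} [MeasurableSpace X] {f : X → ℂ × ℝ} {g : X → ℝ}
    (hf : Measurable f) (hg : Measurable g) : Measurable fun x => turn α (f x) (g x) := by
  unfold turn
  have h1 : Measurable fun x => ec (f x).2 := measurable_ec.comp (measurable_snd.comp hf)
  have h2 : Measurable fun x => ec (g x) := measurable_ec.comp hg
  exact ((measurable_fst.comp hf).add (measurable_const.mul (h1.sub h2))).prodMk hg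

theorem measurableSet_hinge (α : ℂ) (s : ℝ) {X : Type*} [MeasurableSpace X] {G : Set (ℂ × ℝ)}
    (hG : MeasurableSet G) {f g : X → ℂ × ℝ} (hf : Measurable f) (hg : Measurable g) :
    MeasurableSet {x | Hinge α s G (f x) (g x)} := by
  have h1 : Measurable fun x => ⌊(f x).2 / s⌋ :=
    Int.measurable_floor.comp ((measurable_snd.comp hf).div_const s)
  have h2 : Measurable fun x => ⌊(g x).2 / s⌋ :=
    Int.measurable_floor.comp ((measurable_snd.comp hg).div_const s)
  have h3 : Measurable fun x => (f x).1 + α * ec (f x).2 :=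
    (measurable_fst.comp hf).add (measurable_const.mul (measurable_ec.comp (measurable_snd.comp hf)))
  have h4 : Measurable fun x => (g x).1 + α * ec (g x).2 :=
    (measurable_fst.comp hg).add (measurable_const.mul (measurable_ec.comp (measurable_snd.comp hg)))
  exact (hf hG).inter ((hg hG).inter ((measurableSet_lt (measurable_snd.comp hf)
    (measurable_snd.comp hg)).inter ((measurableSet_eq_fun h1 h2).inter
      (measurableSet_eq_fun h3 h4))))

/-- The rearrangement of the coordinates. -/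
theorem mp_rearrange : MeasurePreserving
    (fun r : (ℂ × ℝ) × ℂ => ((r.1.1, r.2), r.1.2)) volume volume := by
  have h1 : MeasurePreserving (MeasurableEquiv.prodAssoc : (ℂ × ℝ) × ℂ ≃ᵐ ℂ × (ℝ × ℂ))
      volume volume := volume_preserving_prodAssoc
  have h2 : MeasurePreserving (Prod.swap : ℝ × ℂ → ℂ × ℝ) volume volume :=
    Measure.measurePreserving_swap
  have h3 : MeasurePreserving (Prod.map id Prod.swap : ℂ × (ℝ × ℂ) → ℂ × (ℂ × ℝ))
      volume volume := (MeasurePreserving.id volume).prod h2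
  have h4 : MeasurePreserving (MeasurableEquiv.prodAssoc.symm : ℂ × (ℂ × ℝ) ≃ᵐ (ℂ × ℂ) × ℝ)
      volume volume := volume_preserving_prodAssoc.symm _
  exact (h4.comp h3).comp h1

theorem abs_sub_le_of_floor {s a b : ℝ} (hs : 0 < s) (h : ⌊a / s⌋ = ⌊b / s⌋) : |b - a| ≤ s := by
  have h1 := Int.abs_sub_lt_one_of_floor_eq_floor h
  have h2 : |a / s - b / s| = |b - a| / s := by
    rw [← sub_div, abs_div, abs_of_pos hs, abs_sub_comm]
  rw [h2, div_lt_one hs] at h1
  exact h1.le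

/-- The set of the paths. -/
def pathSet (α β : ℂ) (h : ℝ) (G Gb Ga : Set (ℂ × ℝ)) : Set ((ℂ × ℝ) × (ℝ × ℝ)) :=
  {q | q.1 ∈ Ga ∧ Hinge α h Gb q.1 (turn α q.1 q.2.1) ∧
    Hinge β h G (turn α q.1 q.2.1) (turn β (turn α q.1 q.2.1) q.2.2)}

theorem measurableSet_pathSet (α β : ℂ) (h : ℝ) {G Gb Ga : Set (ℂ × ℝ)} (hG : MeasurableSet G)
    (hGb : MeasurableSet Gb) (hGa : MeasurableSet Ga) :
    MeasurableSet (pathSet α β h G Gb Ga) := by
  have h1 : Measurable fun q : (ℂ × ℝ) × (ℝ × ℝ) => turn α q.1 q.2.1 :=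
    measurable_turn α measurable_fst (measurable_fst.comp measurable_snd)
  have h2 : Measurable fun q : (ℂ × ℝ) × (ℝ × ℝ) => turn β (turn α q.1 q.2.1) q.2.2 :=
    measurable_turn β h1 (measurable_snd.comp measurable_snd)
  exact (measurable_fst hGa).inter ((measurableSet_hinge α h hGb measurable_fst h1).inter
    (measurableSet_hinge β h hG h1 h2))

theorem turn_turn_fst (α β : ℂ) (x : ℂ × ℝ) (p : ℝ × ℝ) :
    (turn β (turn α x p.1) p.2).1 = lastc α β x p := by
  simp only [turn, lastc]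

theorem measurable_lastc (α β : ℂ) {X : Type*} [MeasurableSpace X] {f : X → ℂ × ℝ}
    {g : X → ℝ × ℝ} (hf : Measurable f) (hg : Measurable g) :
    Measurable fun x => lastc α β (f x) (g x) := by
  have h1 := measurable_turn β (measurable_turn α hf (measurable_fst.comp hg))
    (measurable_snd.comp hg)
  have h2 := measurable_fst.comp h1
  exact h2

/-- Every triangle of `Ga` starts many paths. -/
theorem volume_paths {α β : ℂ} {h a b : ℝ} {G Gb Ga : Set (ℂ × ℝ)} (hG : MeasurableSet G)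
    (hGb : MeasurableSet Gb) (hGa : MeasurableSet Ga) {x : ℂ × ℝ} (hx : x ∈ Ga)
    (ha : ENNReal.ofReal a ≤ volume {t | Hinge α h Gb x (turn α x t)})
    (hb : ∀ y ∈ Gb, ENNReal.ofReal b ≤ volume {t | Hinge β h G y (turn β y t)}) :
    ENNReal.ofReal a * ENNReal.ofReal b ≤ volume {p | (x, p) ∈ pathSet α β h G Gb Ga} := by
  have hW := measurableSet_pathSet α β h hG hGb hGa
  have hWx : MeasurableSet {p : ℝ × ℝ | (x, p) ∈ pathSet α β h G Gb Ga} :=
    measurable_prodMk_left hW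
  rw [Measure.volume_eq_prod, Measure.prod_apply hWx]
  have hA : MeasurableSet {t | Hinge α h Gb x (turn α x t)} :=
    measurableSet_hinge α h hGb measurable_const (measurable_turn α measurable_const measurable_id)
  calc ENNReal.ofReal a * ENNReal.ofReal b
      ≤ ENNReal.ofReal b * volume {t | Hinge α h Gb x (turn α x t)} := by
        rw [mul_comm]; gcongr
    _ = ∫⁻ _ in {t | Hinge α h Gb x (turn α x t)}, ENNReal.ofReal b := by
        rw [setLIntegral_const]
    _ ≤ ∫⁻ t in {t | Hinge α h Gb x (turn α x t)},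
          volume (Prod.mk t ⁻¹' {p : ℝ × ℝ | (x, p) ∈ pathSet α β h G Gb Ga}) := by
        refine setLIntegral_mono' hA fun t ht => ?_
        refine (hb _ ht.2.1).trans (measure_mono fun t' ht' => ?_)
        exact ⟨hx, ht, ht'⟩
    _ ≤ ∫⁻ t, volume (Prod.mk t ⁻¹' {p : ℝ × ℝ | (x, p) ∈ pathSet α β h G Gb Ga}) :=
        setLIntegral_le_lintegral _ _

theorem path_floor {α β : ℂ} {h : ℝ} (hh : 0 < h) {G Gb Ga : Set (ℂ × ℝ)} {x : ℂ × ℝ}
    {p : ℝ × ℝ} (hp : (x, p) ∈ pathSet α β h G Gb Ga) : |p.1 - x.2| ≤ h ∧ |p.2 - x.2| ≤ h := by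
  obtain ⟨_, h1, h2⟩ := hp
  have e1 : ⌊x.2 / h⌋ = ⌊p.1 / h⌋ := h1.2.2.2.1
  have e2 : ⌊p.1 / h⌋ = ⌊p.2 / h⌋ := h2.2.2.2.1
  exact ⟨abs_sub_le_of_floor hh e1, abs_sub_le_of_floor hh (e1.trans e2)⟩

theorem path_of {α β : ℂ} (hJ : (α * conj β).im ≠ 0) (hPa : Prune α) (hPb : Prune β) :
    PathC α β := by
  obtain ⟨Ca, hCa⟩ := hPa
  obtain ⟨Cb, hCb⟩ := hPb
  have hJ0 : 0 < |(α * conj β).im| := abs_pos.mpr hJ
  set J := |(α * conj β).im| with hJdef
  set L := ‖β‖ + ‖β - α‖ with hL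
  have hL0 : 0 ≤ L := by positivity
  set K := 2 * L / J with hK
  have hK0 : 0 ≤ K := by positivity
  -- the constant
  obtain ⟨N, hN⟩ := pow_unbounded_of_one_lt (42 * (2 * K) ^ 2 + 2 * L ^ 2 / J + 1)
    (one_lt_two : (1 : ℝ) < 2)
  refine ⟨N + Ca + Cb + 1, fun η h z₀ G hη hη2 hh hhC hG hGs hGv => ?_⟩
  set C := N + Ca + Cb + 1 with hC
  have hη1 : η ≤ 1 := by linarith
  have hηC1 : η ^ C ≤ 1 := pow_le_one₀ hη.le hη1
  have hh1 : h ≤ 1 := hhC.trans hηC1
  have hηN : η ^ N ≤ (1 / 2) ^ N := pow_le_pow_left₀ hη.le hη2 N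
  have hηN2 : η ^ N * (42 * (2 * K) ^ 2 + 2 * L ^ 2 / J + 1) < 1 := by
    have h1 : η ^ N * (42 * (2 * K) ^ 2 + 2 * L ^ 2 / J + 1) < η ^ N * 2 ^ N :=
      mul_lt_mul_of_pos_left hN (by positivity)
    have h2 : η ^ N * 2 ^ N ≤ (1 / 2) ^ N * 2 ^ N := by gcongr
    have h3 : ((1 : ℝ) / 2) ^ N * 2 ^ N = 1 := by rw [← mul_pow]; norm_num
    linarith
  have hexp : 2 * h * L ^ 2 ≤ J := by
    have h1 : h ≤ η ^ N := hhC.trans (pow_le_pow_of_le_one hη.le hη1 (by omega))
    have h2 : η ^ N * (2 * L ^ 2 / J) ≤ 1 := by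
      have h3 : 0 ≤ η ^ N * (42 * (2 * K) ^ 2 + 1) := by positivity
      nlinarith
    have h3 : h * (2 * L ^ 2 / J) ≤ 1 :=
      (mul_le_mul_of_nonneg_right h1 (by positivity)).trans h2
    have h4 : h * (2 * L ^ 2 / J) = 2 * h * L ^ 2 / J := by ring
    rw [h4, div_le_one hJ0] at h3
    exact h3
  -- pruning
  obtain ⟨Gb, hGb, hGbG, hGbv, hGbh⟩ := hCb η h z₀ G hη hη2 hh hh1 hG hGs
  obtain ⟨Ga, hGa, hGaGb, hGav, hGah⟩ := hCa η h z₀ Gb hη hη2 hh hh1 hGb
    (fun x hx => hGs x (hGbG hx))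
  have hGa2 : ENNReal.ofReal (η / 2 * h ^ 2) ≤ volume Ga := by
    have h1 : volume G ≤ volume (G \ Gb) + (volume (Gb \ Ga) + volume Ga) := by
      calc volume G ≤ volume ((G \ Gb) ∪ ((Gb \ Ga) ∪ Ga)) := by
            refine measure_mono fun x hx => ?_
            by_cases h1 : x ∈ Gb
            · by_cases h2 : x ∈ Ga
              · exact Or.inr (Or.inr h2)
              · exact Or.inr (Or.inl ⟨h1, h2⟩)
            · exact Or.inl ⟨hx, h1⟩
        _ ≤ _ := (measure_union_le _ _).trans (by gcongr; exact measure_union_le _ _)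
    have h2 : ENNReal.ofReal (η * h ^ 2) ≤ ENNReal.ofReal (η / 2 * h ^ 2) + volume Ga := by
      refine (hGv.trans h1).trans ?_
      rw [← add_assoc]
      gcongr
      refine (add_le_add hGbv hGav).trans ?_
      rw [← ENNReal.ofReal_add (by positivity) (by positivity)]
      exact ENNReal.ofReal_le_ofReal (by linarith)
    have h3 : ENNReal.ofReal (η * h ^ 2)
        = ENNReal.ofReal (η / 2 * h ^ 2) + ENNReal.ofReal (η / 2 * h ^ 2) := by
      rw [← ENNReal.ofReal_add (by positivity) (by positivity)]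
      congr 1
      ring
    rw [h3] at h2
    exact (ENNReal.add_le_add_iff_left ENNReal.ofReal_ne_top).mp h2
  set W := pathSet α β h G Gb Ga with hWdef
  have hW : MeasurableSet W := measurableSet_pathSet α β h hG hGb hGa
  have hexpand : ∀ (x : ℂ × ℝ) (p q : ℝ × ℝ), (x, p) ∈ W → (x, q) ∈ W →
      dist p q ≤ K * ‖lastc α β x p - lastc α β x q‖ := by
    intro x p q hp hq
    obtain ⟨h1, h2⟩ := path_floor hh hp
    obtain ⟨h3, h4⟩ := path_floor hh hq
    have h5 := lastc_expand (α := α) (β := β) h1 h2 h3 h4 hexp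
    rw [hK, div_mul_eq_mul_div, le_div_iff₀ hJ0, mul_comm (dist p q)]
    exact h5
  -- the image
  set Φ : (ℂ × ℝ) × (ℝ × ℝ) → (ℂ × ℝ) × ℂ := fun q => (q.1, lastc α β q.1 q.2) with hΦ
  have hΦm : Measurable Φ := measurable_fst.prodMk
    (measurable_lastc α β measurable_fst measurable_snd)
  have hΦi : InjOn Φ W := by
    rintro ⟨x, p⟩ hp ⟨y, q⟩ hq hpq
    simp only [hΦ, Prod.mk.injEq] at hpq
    obtain ⟨rfl, h2⟩ := hpq
    have h3 := hexpand x p q hp hq
    rw [h2, sub_self, norm_zero, mul_zero] at h3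
    rw [dist_le_zero.mp h3]
  set Z1 : Set ((ℂ × ℝ) × ℂ) := Φ '' W with hZ1
  have hZ1m : MeasurableSet Z1 := hW.image_of_measurable_injOn hΦm hΦi
  have hZ1v : ENNReal.ofReal (η ^ (Ca + Cb + 1) * h ^ 4 / 2) ≤
      ENNReal.ofReal ((2 * K) ^ 2) * volume Z1 := by
    rw [Measure.volume_eq_prod, Measure.prod_apply hZ1m, ← lintegral_const_mul' _ _
      ENNReal.ofReal_ne_top]
    calc ENNReal.ofReal (η ^ (Ca + Cb + 1) * h ^ 4 / 2)
        = ENNReal.ofReal (η ^ Ca * h) * ENNReal.ofReal (η ^ Cb * h) *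
            ENNReal.ofReal (η / 2 * h ^ 2) := by
          rw [← ENNReal.ofReal_mul (by positivity), ← ENNReal.ofReal_mul (by positivity)]
          congr 1
          ring
      _ ≤ ENNReal.ofReal (η ^ Ca * h) * ENNReal.ofReal (η ^ Cb * h) * volume Ga := by gcongr
      _ = ∫⁻ _ in Ga, ENNReal.ofReal (η ^ Ca * h) * ENNReal.ofReal (η ^ Cb * h) := by
          rw [setLIntegral_const]
      _ ≤ ∫⁻ x in Ga, ENNReal.ofReal ((2 * K) ^ 2) * volume (Prod.mk x ⁻¹' Z1) := by
          refine setLIntegral_mono' hGa fun x hx => ?_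
          refine (volume_paths hG hGb hGa hx (hGah x hx).1 fun y hy => (hGbh y hy).1).trans ?_
          have h1 := volume_le_image (W := {p | (x, p) ∈ W}) (F := lastc α β x) hK0
            (fun p hp q hq => hexpand x p q hp hq)
          refine h1.trans ?_
          gcongr
          rintro _ ⟨p, hp, rfl⟩
          exact ⟨(x, p), hp, rfl⟩
      _ ≤ ∫⁻ x, ENNReal.ofReal ((2 * K) ^ 2) * volume (Prod.mk x ⁻¹' Z1) :=
          setLIntegral_le_lintegral _ _
  -- rearrangement
  set Z : Set ((ℂ × ℂ) × ℝ) := {r | ((r.1.1, r.2), r.1.2) ∈ Z1} with hZ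
  have hZm : MeasurableSet Z := by
    have h1 : Measurable fun r : (ℂ × ℂ) × ℝ => (((r.1.1, r.2), r.1.2) : (ℂ × ℝ) × ℂ) := by
      fun_prop
    exact h1 hZ1m
  have hZv : volume Z1 = volume Z := by
    have h1 := mp_rearrange.measure_preimage hZm.nullMeasurableSet
    rw [← h1]
    rfl
  -- supports
  have hZs : ∀ r ∈ Z, r.1.1 ∈ sq z₀ h ∧ r.1.2 ∈ sq z₀ h ∧ r.2 ∈ Ico 0 (2 * π) := by
    rintro ⟨⟨z, z''⟩, t⟩ ⟨⟨x, p⟩, hq, he⟩
    simp only [hΦ, Prod.mk.injEq] at he
    obtain ⟨rfl, he2⟩ := he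
    obtain ⟨h1, h2, h3⟩ := hq
    have h4 := hGs _ (hGbG (hGaGb h1))
    have h5 := hGs _ h3.2.1
    refine ⟨h4.1, ?_, h4.2⟩
    have h6 := h5.1
    simp only at h6
    rw [turn_turn_fst, he2] at h6
    exact h6
  -- choice
  set S : Set (ℂ × ℂ) := sq z₀ h ×ˢ sq z₀ h with hS
  have hSm : MeasurableSet S := (measurableSet_sq z₀ h).prod (measurableSet_sq z₀ h)
  set μ : Measure (ℂ × ℂ) := volume.restrict S with hμ
  set f : ℂ × ℂ → ENNReal := fun p => volume (Prod.mk p ⁻¹' Z) with hf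
  have hint : ∫⁻ p, f p ∂μ = volume Z := by
    rw [Measure.volume_eq_prod, Measure.prod_apply hZm, hμ, ← lintegral_indicator hSm]
    refine lintegral_congr fun p => ?_
    by_cases hp : p ∈ S
    · rw [indicator_of_mem hp]
    · rw [indicator_of_notMem hp]
      have : Prod.mk p ⁻¹' Z = ∅ := by
        ext t
        simp only [mem_preimage, mem_empty_iff_false, iff_false]
        intro ht
        have := hZs _ ht
        exact hp ⟨this.1, this.2.1⟩
      rw [this, measure_empty]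
  have hfM : ∀ p, f p ≤ ENNReal.ofReal (2 * π) := by
    intro p
    calc f p ≤ volume (Ico (0 : ℝ) (2 * π)) := measure_mono fun t ht => (hZs _ ht).2.2
      _ = ENNReal.ofReal (2 * π) := by rw [Real.volume_Ico, sub_zero]
  set B : Set (ℂ × ℂ) := {p | ‖p.2 - p.1‖ < η ^ C * h} with hB
  have hBm : MeasurableSet B := by
    have h1 : Measurable fun p : ℂ × ℂ => ‖p.2 - p.1‖ := by fun_prop
    exact measurableSet_lt h1 measurable_const
  have hBv : μ B ≤ ENNReal.ofReal (π * (η ^ C * h) ^ 2 * h ^ 2) := by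
    rw [hμ, Measure.restrict_apply hBm, Measure.volume_eq_prod, Measure.prod_apply (hBm.inter hSm)]
    calc ∫⁻ z, volume (Prod.mk z ⁻¹' (B ∩ S))
        ≤ ∫⁻ z, (sq z₀ h).indicator (fun _ => ENNReal.ofReal (π * (η ^ C * h) ^ 2)) z := by
          refine lintegral_mono fun z => ?_
          by_cases hz : z ∈ sq z₀ h
          · rw [indicator_of_mem hz]
            calc volume (Prod.mk z ⁻¹' (B ∩ S)) ≤ volume (Metric.ball z (η ^ C * h)) := by
                  refine measure_mono fun z'' hz'' => ?_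
                  rw [Metric.mem_ball, dist_eq_norm]
                  exact hz''.1
              _ = ENNReal.ofReal (π * (η ^ C * h) ^ 2) := by
                  have hpi : (NNReal.pi : ENNReal) = ENNReal.ofReal π := by
                    rw [← NNReal.coe_real_pi, ENNReal.ofReal_coe_nnreal]
                  have h0 : 0 ≤ η ^ C * h := by positivity
                  rw [Complex.volume_ball, hpi, ← ENNReal.ofReal_pow h0,
                    ← ENNReal.ofReal_mul (by positivity), mul_comm]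
          · rw [indicator_of_notMem hz]
            have : Prod.mk z ⁻¹' (B ∩ S) = ∅ := by
              ext z''
              simp only [mem_preimage, mem_empty_iff_false, iff_false]
              intro h1
              exact hz h1.2.1
            rw [this, measure_empty]
      _ = ENNReal.ofReal (π * (η ^ C * h) ^ 2 * h ^ 2) := by
          rw [lintegral_indicator (measurableSet_sq z₀ h), setLIntegral_const,
            volume_sq z₀ hh.le, ← ENNReal.ofReal_mul (by positivity)]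
  have hμu : μ univ = ENNReal.ofReal (h ^ 4) := by
    rw [hμ, Measure.restrict_apply_univ, hS, Measure.volume_eq_prod, Measure.prod_prod,
      volume_sq z₀ hh.le, ← ENNReal.ofReal_mul (by positivity)]
    congr 1
    ring
  have hmain : ENNReal.ofReal (η ^ C * h ^ 4) +
      ENNReal.ofReal (2 * π) * ENNReal.ofReal (π * (η ^ C * h) ^ 2 * h ^ 2) < ∫⁻ p, f p ∂μ := by
    rw [hint, ← hZv]
    by_contra hcon
    push Not at hcon
    have h1 : ENNReal.ofReal (η ^ (Ca + Cb + 1) * h ^ 4 / 2) ≤ ENNReal.ofReal ((2 * K) ^ 2 *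
        (η ^ C * h ^ 4 + 2 * π * (π * (η ^ C * h) ^ 2 * h ^ 2))) := by
      refine hZ1v.trans ?_
      rw [ENNReal.ofReal_mul (by positivity), ENNReal.ofReal_add (by positivity) (by positivity),
        ENNReal.ofReal_mul (p := 2 * π) (by positivity)]
      gcongr
    rw [ENNReal.ofReal_le_ofReal_iff (by positivity)] at h1
    have hpi : π ≤ 3.15 := Real.pi_lt_d2.le
    have hpi0 : 0 < π := Real.pi_pos
    have h2 : 2 * π * (π * (η ^ C * h) ^ 2 * h ^ 2) ≤ 20 * (η ^ C * h ^ 4) := by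
      have h3 : 2 * π * (π * (η ^ C * h) ^ 2 * h ^ 2) = 2 * (π * π) * (η ^ C * (η ^ C * h ^ 4)) := by
        ring
      rw [h3]
      have h4 : π * π ≤ 10 := by nlinarith
      have h5 : η ^ C * (η ^ C * h ^ 4) ≤ η ^ C * h ^ 4 :=
        mul_le_of_le_one_left (by positivity) hηC1
      have h6 : 0 ≤ η ^ C * (η ^ C * h ^ 4) := by positivity
      nlinarith
    have h3 : (2 * K) ^ 2 * (η ^ C * h ^ 4 + 2 * π * (π * (η ^ C * h) ^ 2 * h ^ 2)) ≤
        (2 * K) ^ 2 * (21 * (η ^ C * h ^ 4)) := by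
      gcongr
      linarith
    have h4 : (2 * K) ^ 2 * (21 * (η ^ C * h ^ 4)) =
        (η ^ (Ca + Cb + 1) * h ^ 4 / 2) * (η ^ N * (42 * (2 * K) ^ 2)) := by
      rw [hC, show N + Ca + Cb + 1 = (Ca + Cb + 1) + N by omega, pow_add]
      ring
    have h5 : η ^ N * (42 * (2 * K) ^ 2) < 1 := by
      have h6 : 0 ≤ η ^ N * (2 * L ^ 2 / J + 1) := by positivity
      nlinarith
    have h6 : 0 < η ^ (Ca + Cb + 1) * h ^ 4 / 2 := by positivity
    have h7 := mul_lt_mul_of_pos_left h5 h6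
    linarith
  obtain ⟨⟨z, z''⟩, hpB, hpf⟩ := PoolH38PT.exists_good μ f B (ENNReal.ofReal (2 * π))
    (ENNReal.ofReal (η ^ C * h ^ 4)) (ENNReal.ofReal (η ^ C))
    (ENNReal.ofReal (π * (η ^ C * h) ^ 2 * h ^ 2)) hfM hBv hmain
    (by rw [hμu, ← ENNReal.ofReal_mul (by positivity)])
  refine ⟨z, z'', Prod.mk (z, z'') ⁻¹' Z, measurable_prodMk_left hZm, fun t ht => (hZs _ ht).2.2,
    hpf.le, ?_, ?_⟩
  · simp only [hB, mem_ofPred_eq, not_lt] at hpB
    exact hpB
  · rintro t ⟨⟨x, p⟩, hq, he⟩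
    simp only [hΦ, Prod.mk.injEq] at he
    obtain ⟨rfl, he2⟩ := he
    obtain ⟨h1, h2, h3⟩ := hq
    refine ⟨p.1, p.2, ⟨hGbG h2.1, hGbG h2.2.1, h2.2.2⟩, h3, ?_⟩
    rw [turn_turn_fst]
    exact he2

end Pool.Agent.H84.T2e
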