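import Pool.Agent.H2.T2.Cell

/-!
# Paths of two hinges: the map to the last centre is expanding
-/

open MeasureTheory Set
open scoped ComplexConjugate Real ENNReal NNReal

namespace Pool.Agent.H84.T2e

open Pool.Agent.H2.T2

theorem norm_ec_sub_le (x φ : ℝ) : ‖ec x - ec φ‖ ≤ |x - φ| := by
  have h : ec x - ec φ = ec φ * (Complex.exp (Complex.I * ((x - φ : ℝ) : ℂ)) - 1) := by
    have h1 : ec x = ec φ * ec (x - φ) := by rw [← ec_add]; congr 1; ring
    rw [h1]
    simp only [ec]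
    rw [mul_comm ((x - φ : ℝ) : ℂ) Complex.I]
    ring
  rw [h, norm_mul, norm_ec, one_mul]
  exact Real.norm_exp_I_mul_ofReal_sub_one_le

theorem hasDerivAt_ec (x : ℝ) : HasDerivAt ec (Complex.I * ec x) x := by
  unfold ec
  have h1 : HasDerivAt (fun y : ℝ => ((y : ℂ) * Complex.I)) (1 * Complex.I) x :=
    (Complex.ofRealCLM.hasDerivAt (x := x)).mul_const Complex.I
  have h2 := h1.cexp
  convert h2 using 1
  ring

theorem ec_incr {φ t u h : ℝ} (ht : |t - φ| ≤ h) (hu : |u - φ| ≤ h) :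
    ‖ec t - ec u - Complex.I * ec φ * ((t - u : ℝ) : ℂ)‖ ≤ h * |t - u| := by
  have hd : ∀ x ∈ Icc (φ - h) (φ + h), HasDerivWithinAt
      (fun x : ℝ => ec x - Complex.I * ec φ * (x : ℂ)) (Complex.I * ec x - Complex.I * ec φ)
      (Icc (φ - h) (φ + h)) x := by
    intro x _
    have h1 : HasDerivAt (fun x : ℝ => Complex.I * ec φ * (x : ℂ)) (Complex.I * ec φ * 1) x :=
      (Complex.ofRealCLM.hasDerivAt (x := x)).const_mul (Complex.I * ec φ)
    have h2 := (hasDerivAt_ec x).sub h1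
    rw [mul_one] at h2
    exact h2.hasDerivWithinAt
  have hb : ∀ x ∈ Icc (φ - h) (φ + h), ‖Complex.I * ec x - Complex.I * ec φ‖ ≤ h := by
    intro x hx
    rw [← mul_sub, norm_mul, Complex.norm_I, one_mul]
    refine (norm_ec_sub_le x φ).trans ?_
    rw [abs_le]
    constructor <;> linarith [hx.1, hx.2]
  have hu' : u ∈ Icc (φ - h) (φ + h) := by
    rw [abs_le] at hu
    exact ⟨by linarith [hu.1], by linarith [hu.2]⟩
  have ht' : t ∈ Icc (φ - h) (φ + h) := by
    rw [abs_le] at ht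
    exact ⟨by linarith [ht.1], by linarith [ht.2]⟩
  have := (convex_Icc (φ - h) (φ + h)).norm_image_sub_le_of_norm_hasDerivWithin_le hd hb hu' ht'
  rw [Real.norm_eq_abs] at this
  have e : ec t - ec u - Complex.I * ec φ * ((t - u : ℝ) : ℂ)
      = ec t - Complex.I * ec φ * (t : ℂ) - (ec u - Complex.I * ec φ * (u : ℂ)) := by
    push_cast
    ring
  rw [e]
  exact this

/-- The real linear map `(a, b) ↦ (β - α) a - β b` is expanding. -/
theorem lin_lower (α β : ℂ) (a b : ℝ) :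
    |(α * conj β).im| * max |a| |b| ≤ (‖β‖ + ‖β - α‖) * ‖(β - α) * a - β * b‖ := by
  set v : ℂ := (β - α) * a - β * b with hv
  have h1 : (conj β * v).im = -(a * (α * conj β).im) := by
    rw [hv]
    simp only [Complex.mul_im, Complex.mul_re, Complex.sub_re, Complex.sub_im, Complex.conj_re,
      Complex.conj_im, Complex.ofReal_re, Complex.ofReal_im]
    ring
  have h2 : (conj (β - α) * v).im = -(b * (α * conj β).im) := by
    rw [hv]
    simp only [Complex.mul_im, Complex.mul_re, Complex.sub_re, Complex.sub_im, Complex.conj_re,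
      Complex.conj_im, Complex.ofReal_re, Complex.ofReal_im, map_sub]
    ring
  have h3 : |a| * |(α * conj β).im| ≤ ‖β‖ * ‖v‖ := by
    have h := Complex.abs_im_le_norm (conj β * v)
    rw [h1, abs_neg, abs_mul, norm_mul, Complex.norm_conj] at h
    exact h
  have h4 : |b| * |(α * conj β).im| ≤ ‖β - α‖ * ‖v‖ := by
    have h := Complex.abs_im_le_norm (conj (β - α) * v)
    rw [h2, abs_neg, abs_mul, norm_mul, Complex.norm_conj] at h
    exact h
  have h5 : 0 ≤ ‖β‖ * ‖v‖ := by positivity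
  have h6 : 0 ≤ ‖β - α‖ * ‖v‖ := by positivity
  rcases max_cases |a| |b| with ⟨hm, _⟩ | ⟨hm, _⟩ <;> rw [hm] <;> nlinarith

/-- The last centre of a path. -/
noncomputable def lastc (α β : ℂ) (x : ℂ × ℝ) (p : ℝ × ℝ) : ℂ :=
  x.1 + α * (ec x.2 - ec p.1) + β * (ec p.1 - ec p.2)

theorem lastc_expand {α β : ℂ} {x : ℂ × ℝ} {p q : ℝ × ℝ} {h : ℝ}
    (h1 : |p.1 - x.2| ≤ h) (h2 : |p.2 - x.2| ≤ h) (h3 : |q.1 - x.2| ≤ h) (h4 : |q.2 - x.2| ≤ h)
    (hh : 2 * h * (‖β‖ + ‖β - α‖) ^ 2 ≤ |(α * conj β).im|) :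
    |(α * conj β).im| * dist p q ≤ 2 * (‖β‖ + ‖β - α‖) * ‖lastc α β x p - lastc α β x q‖ := by
  set K := ‖β‖ + ‖β - α‖ with hK
  have hK0 : 0 ≤ K := by positivity
  have e1 := ec_incr h1 h3
  have e2 := ec_incr h2 h4
  have hd : dist p q = max |p.1 - q.1| |p.2 - q.2| := by
    rw [Prod.dist_eq, Real.dist_eq, Real.dist_eq]
  have hle1 : |p.1 - q.1| ≤ dist p q := by rw [hd]; exact le_max_left _ _
  have hle2 : |p.2 - q.2| ≤ dist p q := by rw [hd]; exact le_max_right _ _
  have hh0 : 0 ≤ h := (abs_nonneg _).trans h1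
  have key : ‖Complex.I * ec x.2 * ((β - α) * ((p.1 - q.1 : ℝ) : ℂ)
      - β * ((p.2 - q.2 : ℝ) : ℂ))‖ ≤ ‖lastc α β x p - lastc α β x q‖
        + K * (h * dist p q) := by
    have : Complex.I * ec x.2 * ((β - α) * ((p.1 - q.1 : ℝ) : ℂ) - β * ((p.2 - q.2 : ℝ) : ℂ))
        = (lastc α β x p - lastc α β x q)
          - (β - α) * (ec p.1 - ec q.1 - Complex.I * ec x.2 * ((p.1 - q.1 : ℝ) : ℂ))
          + β * (ec p.2 - ec q.2 - Complex.I * ec x.2 * ((p.2 - q.2 : ℝ) : ℂ)) := by
      unfold lastc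
      ring
    rw [this]
    refine (norm_add_le _ _).trans ?_
    have h5 := norm_sub_le (lastc α β x p - lastc α β x q)
      ((β - α) * (ec p.1 - ec q.1 - Complex.I * ec x.2 * ((p.1 - q.1 : ℝ) : ℂ)))
    rw [norm_mul] at h5
    rw [norm_mul β]
    have h6 : ‖ec p.1 - ec q.1 - Complex.I * ec x.2 * ((p.1 - q.1 : ℝ) : ℂ)‖ ≤ h * dist p q :=
      e1.trans (mul_le_mul_of_nonneg_left hle1 hh0)
    have h7 : ‖ec p.2 - ec q.2 - Complex.I * ec x.2 * ((p.2 - q.2 : ℝ) : ℂ)‖ ≤ h * dist p q :=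
      e2.trans (mul_le_mul_of_nonneg_left hle2 hh0)
    have h8 := mul_le_mul_of_nonneg_left h6 (norm_nonneg (β - α))
    have h9 := mul_le_mul_of_nonneg_left h7 (norm_nonneg β)
    rw [hK]
    linarith
  rw [norm_mul, norm_mul, Complex.norm_I, norm_ec, one_mul, one_mul] at key
  have hl := lin_lower α β (p.1 - q.1) (p.2 - q.2)
  rw [← hd, ← hK] at hl
  have h10 := mul_le_mul_of_nonneg_left key hK0
  have h11 : K * (K * (h * dist p q)) ≤ |(α * conj β).im| * dist p q / 2 := by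
    have h12 : K * (K * (h * dist p q)) = (2 * h * K ^ 2) * dist p q / 2 := by ring
    rw [h12]
    have := mul_le_mul_of_nonneg_right hh (dist_nonneg (x := p) (y := q))
    linarith
  nlinarith

/-- The volume of the image of a planar set under an expanding map. -/
theorem volume_le_image {W : Set (ℝ × ℝ)} {F : ℝ × ℝ → ℂ} {K : ℝ} (hK : 0 ≤ K)
    (hF : ∀ p ∈ W, ∀ q ∈ W, dist p q ≤ K * ‖F p - F q‖) :
    volume W ≤ ENNReal.ofReal ((2 * K) ^ 2) * volume (F '' W) := by
  classical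
  set F2 : ℝ × ℝ → ℝ × ℝ := fun p => ((F p).re, (F p).im) with hF2
  have hvol : volume (F '' W) = volume (F2 '' W) := by
    have h1 : F '' W = Complex.measurableEquivRealProd ⁻¹' (F2 '' W) := by
      ext z
      simp only [mem_image, mem_preimage, Complex.measurableEquivRealProd_apply, hF2, Prod.mk.injEq]
      constructor
      · rintro ⟨p, hp, rfl⟩
        exact ⟨p, hp, rfl, rfl⟩
      · rintro ⟨p, hp, h1, h2⟩
        exact ⟨p, hp, Complex.ext h1 h2⟩
    rw [h1, Complex.volume_preserving_equiv_real_prod.measure_preimage_equiv]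
  have hexp : ∀ p ∈ W, ∀ q ∈ W, dist p q ≤ (2 * K) * dist (F2 p) (F2 q) := by
    intro p hp q hq
    refine (hF p hp q hq).trans ?_
    have h1 : ‖F p - F q‖ ≤ 2 * dist (F2 p) (F2 q) := by
      refine (Complex.norm_le_abs_re_add_abs_im _).trans ?_
      rw [Prod.dist_eq, Real.dist_eq, Real.dist_eq, Complex.sub_re, Complex.sub_im]
      have h2 := le_max_left |(F p).re - (F q).re| |(F p).im - (F q).im|
      have h3 := le_max_right |(F p).re - (F q).re| |(F p).im - (F q).im|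
      simp only [hF2]
      linarith
    nlinarith
  have hinj : InjOn F2 W := by
    intro p hp q hq hpq
    have h1 := hexp p hp q hq
    rw [hpq, dist_self, mul_zero] at h1
    exact dist_le_zero.mp h1
  set g : ℝ × ℝ → ℝ × ℝ := Function.invFunOn F2 W with hg
  have hgW : g '' (F2 '' W) = W := by
    rw [← image_comp]
    ext p
    constructor
    · rintro ⟨q, hq, rfl⟩
      simp only [Function.comp_apply, hg]
      rw [hinj.leftInvOn_invFunOn hq]
      exact hq
    · intro hp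
      exact ⟨p, hp, by simp only [Function.comp_apply, hg]; rw [hinj.leftInvOn_invFunOn hp]⟩
  have hlip : LipschitzOnWith (Real.toNNReal (2 * K)) g (F2 '' W) := by
    refine LipschitzOnWith.of_dist_le_mul ?_
    rintro _ ⟨p, hp, rfl⟩ _ ⟨q, hq, rfl⟩
    rw [hg, hinj.leftInvOn_invFunOn hp, hinj.leftInvOn_invFunOn hq,
      Real.coe_toNNReal _ (by positivity)]
    exact hexp p hp q hq
  have h1 := hlip.hausdorffMeasure_image_le (d := 2) (by norm_num)
  rw [hgW, hausdorffMeasure_prod_real] at h1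
  rw [hvol]
  refine h1.trans (le_of_eq ?_)
  congr 1
  rw [ENNReal.ofReal_pow (by positivity)]
  norm_num [ENNReal.ofReal]

end Pool.Agent.H84.T2e
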